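import Pool.Agent.Y486.Scal

/-!
# Positivity of the reference metrics
-/

set_option autoImplicit false

open scoped Manifold ContDiff Topology ComplexConjugate MatrixGroups UpperHalfPlane Matrix
open MeasureTheory Set Filter

namespace Pool.Agent.Y574.KX

open Pool.Agent.W549.CY (Cn dz dzbar HermitianMetric chernRicci chernScalar)
open Pool.Agent.W711.KC (jj nn CG jj_ne im_mob)
open Pool.Agent.Y486
open Pool.Agent.TH598.KG (hf Cutoff)
open Pool.Agent.TH997.CMan
open Complex (normSq)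

theorem hf_two2 (A : M2) (v : Cn 2) : hf A v =
    A 0 0 * v 0 * conj (v 0) + A 0 1 * v 0 * conj (v 1) +
    (A 1 0 * v 1 * conj (v 0) + A 1 1 * v 1 * conj (v 1)) := by
  unfold hf
  simp only [Fin.sum_univ_two]

/-- `y |t|² + 1` -/
noncomputable def Ft (p : Cn 2) : ℝ := (p 0).im * normSq (p 1) + 1

theorem Ft_pos {p : Cn 2} (hp : p ∈ UU) : 0 < Ft p :=
  add_pos_of_nonneg_of_pos (mul_nonneg (le_of_lt hp) (Complex.normSq_nonneg _)) one_pos

theorem contDiff_Ft {n : WithTop ℕ∞} : ContDiff ℝ n Ft := by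
  have h3 : (fun q : Cn 2 => normSq (q 1)) = fun q => ‖q 1‖ ^ 2 := by
    funext q
    exact Complex.normSq_eq_norm_sq _
  unfold Ft
  exact (contDiff_im.mul (h3 ▸ (contDiff_apply ℝ ℂ (1 : Fin 2)).norm_sq ℝ)).add contDiff_const

theorem Ft_coe (p : Cn 2) : ((Ft p : ℝ) : ℂ) =
    ((St 0 p : ℝ) : ℂ) * (p 1 * conj (p 1)) + 1 := by
  unfold Ft St
  push_cast
  rw [normSq_coe]
  ring

theorem dif_St0 (p : Cn 2) : DifferentiableAt ℝ (fun q : Cn 2 => ((St 0 q : ℝ) : ℂ)) p :=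
  Complex.ofRealCLM.differentiableAt.comp p ((contDiff_St 0 (n := 1)).differentiable (by simp) p)

theorem dif_H (p : Cn 2) : DifferentiableAt ℝ (fun q : Cn 2 => q 1 * conj (q 1)) p :=
  (difR 1 p).mul (difC 1 p)

theorem dz_H (j : Fin 2) (p : Cn 2) : dz j (fun q : Cn 2 => q 1 * conj (q 1)) p =
    if j = 0 then 0 else conj (p 1) := by
  rw [dz_mul (difR 1 p) (difC 1 p), dz_coord, dz_cc]
  fin_cases j <;> simp

theorem dzbar_H (j : Fin 2) (p : Cn 2) : dzbar j (fun q : Cn 2 => q 1 * conj (q 1)) p =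
    if j = 0 then 0 else p 1 := by
  rw [dzbar_mul' (difR 1 p) (difC 1 p), dzbar_coord, dzbar_cc]
  fin_cases j <;> simp

theorem dz_Ft (j : Fin 2) (p : Cn 2) : dz j (fun q => ((Ft q : ℝ) : ℂ)) p =
    if j = 0 then -Complex.I / 2 * (p 1 * conj (p 1)) else ((p 0).im : ℂ) * conj (p 1) := by
  simp only [Ft_coe]
  have e1 := dz_add (u := fun q : Cn 2 => ((St 0 q : ℝ) : ℂ) * (q 1 * conj (q 1)))
    (v := fun _ : Cn 2 => (1 : ℂ)) ((dif_St0 p).mul (dif_H p)) (differentiableAt_const _) j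
  have e2 := dz_mul (dif_St0 p) (dif_H p) j
  rw [e1, e2, dz_const', dz_St, dz_H]
  have h0 : St 0 p = (p 0).im := by simp [St]
  rw [h0]
  fin_cases j <;> simp

theorem dzbar_Ft (j : Fin 2) (p : Cn 2) : dzbar j (fun q => ((Ft q : ℝ) : ℂ)) p =
    if j = 0 then Complex.I / 2 * (p 1 * conj (p 1)) else ((p 0).im : ℂ) * p 1 := by
  simp only [Ft_coe]
  have e1 := dzbar_add (u := fun q : Cn 2 => ((St 0 q : ℝ) : ℂ) * (q 1 * conj (q 1)))
    (v := fun _ : Cn 2 => (1 : ℂ)) ((dif_St0 p).mul (dif_H p)) (differentiableAt_const _) j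
  have e2 := dzbar_mul' (dif_St0 p) (dif_H p) j
  have e3 : dzbar j (fun _ : Cn 2 => (1 : ℂ)) p = 0 := by
    unfold dzbar
    simp
  rw [e1, e2, e3, dzbar_St, dzbar_H]
  have h0 : St 0 p = (p 0).im := by simp [St]
  rw [h0]
  fin_cases j <;> simp

theorem LL_Ft (p : Cn 2) : LL Ft p =
    !![0, -Complex.I / 2 * p 1; Complex.I / 2 * conj (p 1), ((p 0).im : ℂ)] := by
  ext j k
  show dz j (dzbar k fun q => ((Ft q : ℝ) : ℂ)) p = _
  have e : (dzbar k fun q => ((Ft q : ℝ) : ℂ)) = fun q =>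
      if k = 0 then Complex.I / 2 * (q 1 * conj (q 1)) else ((q 0).im : ℂ) * q 1 := by
    funext q
    exact dzbar_Ft k q
  rw [e]
  fin_cases k
  · simp only [Fin.zero_eta, if_true]
    rw [dz_const_mul' _ (dif_H p), dz_H]
    fin_cases j <;> simp
  · simp only [Fin.mk_one, one_ne_zero, if_false]
    have e0 : (fun q : Cn 2 => ((q 0).im : ℂ) * q 1) = fun q => ((St 0 q : ℝ) : ℂ) * q 1 := by
      funext q
      have h0 : St 0 q = (q 0).im := by simp [St]
      rw [h0]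
    rw [e0, dz_mul (dif_St0 p) (difR 1 p), dz_St, dz_coord]
    have h0 : St 0 p = (p 0).im := by simp [St]
    rw [h0]
    fin_cases j <;> simp

theorem LL_logFt {p : Cn 2} (hp : p ∈ UU) :
    LL (fun q => Real.log (Ft q)) p =
      !![-((p 1 * conj (p 1)) ^ 2 / (4 * (Ft p : ℂ) ^ 2)), -(Complex.I / 2 * p 1 / (Ft p : ℂ) ^ 2);
        Complex.I / 2 * conj (p 1) / (Ft p : ℂ) ^ 2, ((p 0).im : ℂ) / (Ft p : ℂ) ^ 2] := by
  have h0 := Ft_pos hp
  have hne : (Ft p : ℂ) ≠ 0 := by exact_mod_cast h0.ne'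
  have hS : (Ft p : ℂ) = ((p 0).im : ℂ) * (p 1 * conj (p 1)) + 1 := by
    unfold Ft
    push_cast
    rw [normSq_coe]
  ext j k
  rw [LL_log contDiff_Ft.contDiffAt h0, LL_Ft, dz_Ft, dzbar_Ft]
  fin_cases j <;> fin_cases k
  · simp
    field_simp
    linear_combination (4 * (p 1) ^ 2 * conj (p 1) ^ 2 : ℂ) * Complex.I_sq
  · simp
    rw [eq_comm, ← neg_div, div_eq_div_iff (pow_ne_zero 2 hne) (pow_ne_zero 2 hne)]
    rw [hS]
    ring
  · simp
    rw [eq_comm, div_eq_div_iff (pow_ne_zero 2 hne) (pow_ne_zero 2 hne)]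
    rw [hS]
    ring
  · simp
    rw [eq_comm, div_eq_div_iff (pow_ne_zero 2 hne) (pow_ne_zero 2 hne)]
    rw [hS]
    ring

theorem LL_Rw_one (A C : ℝ) {p : Cn 2} (hp : p ∈ UU) : LL (Rw A C 1) p =
    !![-(A * ((p 1 * conj (p 1)) ^ 2 / (4 * (Ft p : ℂ) ^ 2))) + C / (4 * ((p 0).im : ℂ) ^ 2),
        -(A * (Complex.I / 2 * p 1 / (Ft p : ℂ) ^ 2));
        A * (Complex.I / 2 * conj (p 1) / (Ft p : ℂ) ^ 2),
        A * (((p 0).im : ℂ) / (Ft p : ℂ) ^ 2)] := by
  have hd1 : ContDiffAt ℝ 2 (fun q => Real.log (Ft q)) p :=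
    contDiff_Ft.contDiffAt.log (Ft_pos hp).ne'
  have hd0 : ContDiffAt ℝ 2 (fun q => Real.log (St 0 q)) p :=
    (contDiff_St 0).contDiffAt.log (St_pos le_rfl hp).ne'
  have e : Rw A C 1 = fun q => A * Real.log (Ft q) - C * Real.log (St 0 q) := by
    funext q
    unfold Rw Nn Ft St
    simp [ins]
  have h0 : St 0 p = (p 0).im := by simp [St]
  rw [e, LL_sub (contDiffAt_const.mul hd1) (contDiffAt_const.mul hd0), LL_const_mul _ hd1,
    LL_const_mul _ hd0, LL_logFt hp, LL_logSt le_rfl hp, h0]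
  ext j k
  fin_cases j <;> fin_cases k
  · simp
    ring
  · simp
  · simp
  · simp

theorem hf_Rw_zero (A C : ℝ) {p : Cn 2} (hp : p ∈ UU) (v : Cn 2) : hf (LL (Rw A C 0) p) v =
    ((A * ((p 0).im / St 1 p ^ 2) * normSq (v 1 + Complex.I / (2 * (p 0).im) * p 1 * v 0) +
      normSq (v 0) * (C / (4 * (p 0).im ^ 2) - A / (4 * (p 0).im * St 1 p)) : ℝ) : ℂ) := by
  have hy : (p 0).im ≠ 0 := (show 0 < (p 0).im from hp).ne'
  have hyc : ((p 0).im : ℂ) ≠ 0 := by exact_mod_cast hy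
  have h0 := (St_pos zero_le_one hp).ne'
  have hne : (St 1 p : ℂ) ≠ 0 := by exact_mod_cast h0
  have hS : (St 1 p : ℂ) = ((p 0).im : ℂ) + (p 1 * conj (p 1)) := by
    unfold St
    push_cast
    rw [normSq_coe]
    ring
  rw [← vv_zero_eq, hf_two2, LL_vv' A C 0 hp, Real.exp_zero]
  push_cast
  rw [normSq_coe, normSq_coe]
  simp only [map_add, map_mul, map_div₀, Complex.conj_I, Complex.conj_ofReal, map_ofNat]
  simp only [Matrix.of_apply, Matrix.cons_val', Matrix.cons_val_zero,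
    Matrix.cons_val_one, Matrix.empty_val', Matrix.cons_val_fin_one]
  set S : ℂ := (St 1 p : ℂ) with hSdef
  set y : ℂ := ((p 0).im : ℂ) with hydef
  have e : p 1 * conj (p 1) = S - y := by rw [hS]; ring
  rw [← sub_eq_zero]
  field_simp
  linear_combination (4 * A * y * v 0 * conj (v 0)) * ((p 1 * conj (p 1)) * Complex.I_sq) -
      (4 * A * y * v 0 * conj (v 0)) * e

theorem hf_Rw_one (A C : ℝ) {p : Cn 2} (hp : p ∈ UU) (v : Cn 2) : hf (LL (Rw A C 1) p) v =
    ((A * ((p 0).im / Ft p ^ 2) * normSq (v 1 - Complex.I / (2 * (p 0).im) * p 1 * v 0) +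
      normSq (v 0) * (C / (4 * (p 0).im ^ 2) -
        A * normSq (p 1) / (4 * (p 0).im * Ft p)) : ℝ) : ℂ) := by
  have hy : (p 0).im ≠ 0 := (show 0 < (p 0).im from hp).ne'
  have hyc : ((p 0).im : ℂ) ≠ 0 := by exact_mod_cast hy
  have h0 := (Ft_pos hp).ne'
  have hne : (Ft p : ℂ) ≠ 0 := by exact_mod_cast h0
  have hS : (Ft p : ℂ) = ((p 0).im : ℂ) * (p 1 * conj (p 1)) + 1 := by
    unfold Ft
    push_cast
    rw [normSq_coe]
  rw [hf_two2, LL_Rw_one A C hp]
  push_cast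
  rw [normSq_coe, normSq_coe, normSq_coe]
  simp only [map_sub, map_mul, map_div₀, Complex.conj_I, Complex.conj_ofReal, map_ofNat]
  simp only [Matrix.of_apply, Matrix.cons_val', Matrix.cons_val_zero,
    Matrix.cons_val_one, Matrix.empty_val', Matrix.cons_val_fin_one]
  set S : ℂ := (Ft p : ℂ) with hSdef
  set y : ℂ := ((p 0).im : ℂ) with hydef
  have e : y * (p 1 * conj (p 1)) = S - 1 := by rw [hS]; ring
  rw [← sub_eq_zero]
  field_simp
  linear_combination (4 * A * y * v 0 * conj (v 0)) * ((p 1 * conj (p 1)) * Complex.I_sq) -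
      (4 * A * y * v 0 * conj (v 0)) * (p 1 * conj (p 1)) * e

theorem hf_Rw_pos {A C : ℝ} (hA : 0 < A) (hAC : A < C) (i : Fin 2) {p : Cn 2} (hp : p ∈ UU)
    {v : Cn 2} (hv : v ≠ 0) : 0 < (hf (LL (Rw A C i) p) v).re := by
  have hy : 0 < (p 0).im := hp
  have hv0 : v 0 = 0 → v 1 ≠ 0 := by
    intro h0 h1
    apply hv
    funext k
    fin_cases k
    · exact h0
    · exact h1
  have hgen : ∀ (κ μ : ℝ) (w : ℂ), 0 < κ → 0 < μ → (v 0 = 0 → w = v 1) →
      0 < κ * normSq w + normSq (v 0) * μ := by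
    intro κ μ w hκ hμ hw
    by_cases h0 : v 0 = 0
    · rw [hw h0, h0, map_zero, zero_mul, add_zero]
      exact mul_pos hκ (Complex.normSq_pos.2 (hv0 h0))
    · exact add_pos_of_nonneg_of_pos (mul_nonneg hκ.le (Complex.normSq_nonneg _))
        (mul_pos (Complex.normSq_pos.2 h0) hμ)
  fin_cases i
  · show 0 < (hf (LL (Rw A C 0) p) v).re
    rw [hf_Rw_zero A C hp, Complex.ofReal_re]
    have hS := St_pos zero_le_one hp
    have hyS : (p 0).im ≤ St 1 p := by
      unfold St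
      rw [one_mul]
      exact le_add_of_nonneg_right (Complex.normSq_nonneg _)
    refine hgen _ _ _ (mul_pos hA (div_pos hy (pow_pos hS 2))) ?_ ?_
    · rw [sub_pos, div_lt_div_iff₀ (by positivity) (by positivity)]
      have h1 : A * (4 * (p 0).im ^ 2) < C * (4 * (p 0).im ^ 2) :=
        mul_lt_mul_of_pos_right hAC (by positivity)
      refine h1.trans_le (mul_le_mul_of_nonneg_left ?_ (hA.trans hAC).le)
      nlinarith
    · intro h0
      rw [h0, mul_zero, add_zero]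
  · show 0 < (hf (LL (Rw A C 1) p) v).re
    rw [hf_Rw_one A C hp, Complex.ofReal_re]
    have hS := Ft_pos hp
    have hn := Complex.normSq_nonneg (p 1)
    have hyS : (p 0).im * normSq (p 1) ≤ Ft p := by
      unfold Ft
      exact le_add_of_nonneg_right zero_le_one
    refine hgen _ _ _ (mul_pos hA (div_pos hy (pow_pos hS 2))) ?_ ?_
    · rw [sub_pos, div_lt_div_iff₀ (by positivity) (by positivity)]
      have h1 : A * normSq (p 1) * (4 * (p 0).im ^ 2) ≤ A * (4 * (p 0).im * Ft p) := by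
        have : A * normSq (p 1) * (4 * (p 0).im ^ 2) =
          A * (4 * (p 0).im * ((p 0).im * normSq (p 1))) := by ring
        rw [this]
        exact mul_le_mul_of_nonneg_left (mul_le_mul_of_nonneg_left hyS (by positivity)) hA.le
      exact h1.trans_lt (mul_lt_mul_of_pos_right hAC (by positivity))
    · intro h0
      rw [h0, mul_zero, sub_zero]

theorem pd_Rw {A C : ℝ} (hA : 0 < A) (hAC : A < C) : PD (Rw A C) :=
  fun i _ hp _ hv => hf_Rw_pos hA hAC i hp hv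

end Pool.Agent.Y574.KX
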