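import Pool.Agent.Y574.KX.Vol
import Pool.Agent.Y574.KX.Pos

/-!
# Part X: the manifold, the reference metrics and the transfer to the charts
-/

set_option autoImplicit false

open scoped Manifold ContDiff Topology ComplexConjugate MatrixGroups UpperHalfPlane Matrix
open MeasureTheory Set Filter

namespace Pool.Agent.Y574.KX

open Pool.Agent.W549.CY (Cn dz dzbar HermitianMetric chernRicci chernScalar)
open Pool.Agent.W711.KC (jj nn CG jj_ne im_mob CG_far)
open Pool.Agent.Y486
open Pool.Agent.TH598 (IsKahler IsVolume HasTotalScalar scal)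
open Pool.Agent.TH598.KG (hf Cutoff posDef_iff_hf hf_of_transform)
open Pool.Agent.TH997.CMan

theorem chernScalar_congr2 {n : ℕ} {g g' : Cn n → Matrix (Fin n) (Fin n) ℂ} {z : Cn n}
    (h : g =ᶠ[𝓝 z] g') : chernScalar g z = chernScalar g' z := by
  unfold chernScalar
  rw [h.eq_of_nhds]
  congr 2
  unfold chernRicci
  ext j k
  simp only [Matrix.of_apply, neg_inj]
  apply levi_congr
  filter_upwards [h] with w hw
  rw [hw]

/-- The matrices of a weight form a metric. -/
theorem isMet_LL {A C : ℝ} {P : Fin 2 → Cn 2 → ℝ} (hP : Wt A C P) (hpd : PD P) :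
    IsMet fun i p => LL (P i) p where
  smooth := fun i j k => contDiffOn_LL (hP.smooth i) j k
  herm := fun i _ hp => LL_herm (hP.cd2 i hp)
  pos := hpd
  compat := by
    intro g hg i j p hp h v
    refine hf_of_transform (fun a b => ?_) v
    rw [fderiv_FF g i j hp h, hP.LL_eq hg i j hp h]
    rfl

theorem closed_LL {P : Cn 2 → ℝ} (hP : ContDiffOn ℝ ∞ P UU) : Closed fun p => LL P p := by
  intro p hp i j k
  have h1 : ContDiffAt ℝ ∞ (dzbar k fun q => ((P q : ℝ) : ℂ)) p :=
    (contDiffOn_dzbar (contDiffOn_coe hP) k).contDiffAt (isOpen_UU.mem_nhds hp)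
  exact dz_dz (h1.of_le two_le_inf) i j

section X

variable {X : Type} [TopologicalSpace X] [ChartedSpace (Cn 2) X]
  [IsManifold 𝓘(ℂ, Cn 2) ω X] {qq : Fin 2 → Cn 2 → X}

theorem scal_qq (hQ : IsQ X qq) (h : HermitianMetric 2 X) {m : Fin 2 → Cn 2 → M2}
    (hr : Rep qq h m) (i : Fin 2) {p : Cn 2} (hp : p ∈ UU) :
    scal h (qq i p) = (chernScalar (m i) p).re := by
  obtain ⟨e, he, hpe, heU, hes⟩ := hQ.exists_chart i p hp
  have h1 : chernScalar (m i) p = chernScalar (h.g e) p := by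
    apply chernScalar_congr2
    filter_upwards [e.open_target.mem_nhds hpe] with q hq
    exact (hr e he i heU hes q hq).symm
  have hx : qq i p ∈ e.source := by
    rw [← hes p hpe]
    exact e.map_target hpe
  unfold scal
  rw [h1, chernScalar_chart h (chart_mem_atlas (Cn 2) (qq i p)) he ⟨mem_chart_source _ _, hx⟩,
    ← hes p hpe, e.right_inv hpe]

/-- The total scalar curvature. -/
theorem total_scalar [CompactSpace X] [MeasurableSpace X] [BorelSpace X] (hQ : IsQ X qq)
    (hqc : ContinuousOn (qq 0) UU) {φ : ℂ → ℝ} (hφ : Cutoff CG φ) (h : HermitianMetric 2 X)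
    {A C : ℝ} {P : Fin 2 → Cn 2 → ℝ} (hP : Wt A C P) (hpd : PD P)
    (hr : Rep qq h fun i p => LL (P i) p) :
    HasTotalScalar h (∫ p in UU, φ (p 0) *
        (4 * ((LL (P 0) p).det.re * (chernScalar (LL (P 0)) p).re))) := by
  have hV := isVolume_map hQ hqc hφ h (isMet_LL hP hpd) hr
  set ν : Measure (Cn 2) := (volume.restrict UU).withDensity
      fun p => ENNReal.ofReal (φ (p 0) * (4 * (LL (P 0) p).det.re)) with hν
  have hmeasU : MeasurableSet UU := isOpen_UU.measurableSet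
  have hqm : AEMeasurable (qq 0) (volume.restrict UU) := hqc.aemeasurable hmeasU
  have hqν : AEMeasurable (qq 0) ν := hqm.mono_ac (withDensity_absolutelyContinuous _ _)
  have hsc : Continuous (scal h) := continuous_scal h
  have hscq : ∀ p ∈ UU, scal h (qq 0 p) = (chernScalar (LL (P 0)) p).re := fun p hp =>
    scal_qq hQ h hr 0 hp
  have hdens0 : ∀ p ∈ UU, 0 ≤ φ (p 0) * (4 * (LL (P 0) p).det.re) := fun p hp =>
    mul_nonneg (hφ.nonneg _) (mul_nonneg (by norm_num) (hpd.det_pos hP 0 hp).le)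
  have i1 := (dn_det hP).integrable hφ 0
  have i2 := (Dn.fn_mul (fn_sc hP hpd) (dn_det hP)).integrable hφ 0
  have hdm : AEMeasurable (fun p => φ (p 0) * (4 * (LL (P 0) p).det.re)) (volume.restrict UU) := by
    have := i1.aemeasurable.const_mul 4
    refine this.congr (Eventually.of_forall fun p => ?_)
    simp only
    ring
  have key : ∀ p ∈ UU, (ENNReal.ofReal (φ (p 0) * (4 * (LL (P 0) p).det.re))).toReal •
      scal h (qq 0 p) =
      φ (p 0) * (4 * ((LL (P 0) p).det.re * (chernScalar (LL (P 0)) p).re)) := by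
    intro p hp
    rw [ENNReal.toReal_ofReal (hdens0 p hp), hscq p hp, smul_eq_mul]
    ring
  refine ⟨_, hV, ?_, ?_⟩
  · rw [integrable_map_measure hsc.measurable.aestronglyMeasurable hqν, hν,
      integrable_withDensity_iff_integrable_smul₀' hdm.ennreal_ofReal
        (Eventually.of_forall fun p => ENNReal.ofReal_lt_top)]
    have h3 : IntegrableOn (fun p => 4 * (φ (p 0) * (sc P 0 p * (LL (P 0) p).det.re))) UU :=
      i2.const_mul 4
    refine h3.congr ?_
    filter_upwards [ae_restrict_mem hmeasU] with p hp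
    simp only [Function.comp_apply]
    rw [key p hp]
    unfold sc
    ring
  · rw [integral_map hqν hsc.measurable.aestronglyMeasurable, hν,
      integral_withDensity_eq_integral_toReal_smul₀ hdm.ennreal_ofReal
        (Eventually.of_forall fun p => ENNReal.ofReal_lt_top)]
    refine integral_congr_ae ?_
    filter_upwards [ae_restrict_mem hmeasU] with p hp
    exact key p hp

/-- Smooth functions on the quotient, in the charts. -/
theorem contDiffAt_comp_qq (hQ : IsQ X qq) {ψ : X → ℝ}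
    (hψ : ContMDiff 𝓘(ℝ, Cn 2) 𝓘(ℝ, ℝ) ∞ ψ) {e : OpenPartialHomeomorph X (Cn 2)}
    (he : e ∈ atlas (Cn 2) X) {p : Cn 2} (hp : p ∈ e.target) :
    ContDiffAt ℝ ∞ (fun q => ψ (e.symm q)) p := by
  set x : X := e.symm p with hx
  have h1 := (contMDiffAt_iff.1 (hψ x)).2
  simp only [mfld_simps] at h1
  have h2 : ContDiffAt ℝ ∞ (ψ ∘ (chartAt (Cn 2) x).symm) (chartAt (Cn 2) x x) := by
    rw [contDiffWithinAt_univ] at h1
    simpa [Function.comp_def, chartAt_self_eq] using h1
  have hd : p ∈ dom e (chartAt (Cn 2) x) := mem_dom.2 ⟨hp, mem_chart_source _ x⟩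
  have h3 : ContDiffAt ℂ ∞ (chartAt (Cn 2) x ∘ e.symm) p :=
    (contDiffAt_trans he (chart_mem_atlas _ x) hd).of_le le_top
  have h4 : ContDiffAt ℝ ∞ (chartAt (Cn 2) x ∘ e.symm) p := h3.restrict_scalars ℝ
  have h5 : ContDiffAt ℝ ∞ ((ψ ∘ (chartAt (Cn 2) x).symm) ∘ (chartAt (Cn 2) x ∘ e.symm)) p := by
    refine ContDiffAt.comp p ?_ h4
    exact h2
  refine h5.congr_of_eventuallyEq ?_
  filter_upwards [(isOpen_dom e (chartAt (Cn 2) x)).mem_nhds hd] with q hq
  simp only [Function.comp_apply]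
  rw [(chartAt (Cn 2) x).left_inv (mem_dom.1 hq).2]

theorem wt_psi (hQ : IsQ X qq) {ψ : X → ℝ} (hψ : ContMDiff 𝓘(ℝ, Cn 2) 𝓘(ℝ, ℝ) ∞ ψ) :
    Wt 0 0 fun i p => ψ (qq i p) := by
  refine ⟨fun i p hp => ?_, fun g hg i j p hp h => ?_⟩
  · obtain ⟨e, he, hpe, heU, hes⟩ := hQ.exists_chart i p hp
    apply ContDiffAt.contDiffWithinAt
    refine (contDiffAt_comp_qq hQ hψ he hpe).congr_of_eventuallyEq ?_
    filter_upwards [e.open_target.mem_nhds hpe] with q hq
    rw [hes q hq]
  · have h1 : qq i p = qq j (FF g i j p) :=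
      (hQ.eq_iff i j p hp _ (FF_mem g i j hp)).2 ⟨g, hg, h, rfl⟩
    show ψ (qq j (FF g i j p)) = _
    rw [← h1]
    ring

/-- The transfer of a metric in the class of a reference metric. -/
theorem transfer (hQ : IsQ X qq) {A C : ℝ} {h₀ h : HermitianMetric 2 X}
    (hr₀ : Rep qq h₀ fun i p => LL (Rw A C i) p) (hs : SameClass h₀ h) :
    ∃ P : Fin 2 → Cn 2 → ℝ, Wt A C P ∧
      (∀ i, ∀ p ∈ UU, ∀ v : Cn 2, v ≠ 0 → 0 < (hf (LL (P i) p) v).re) ∧
      ∀ i, ∀ p ∈ UU, ∃ x : X, scal h x = (chernScalar (LL (P i)) p).re := by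
  obtain ⟨ψ, hψ, hc⟩ := hs
  have hW : Wt A C fun i p => Rw A C i p + ψ (qq i p) := by
    have := (wt_Rw A C).add (wt_psi hQ hψ)
    simpa using this
  have hrep : Rep qq h fun i p => LL (fun q => Rw A C i q + ψ (qq i q)) p := by
    intro e he i heU hes p hp
    have h1 := (wt_Rw A C).cd2 i (heU hp)
    have h2 := (wt_psi hQ hψ).cd2 i (heU hp)
    have h3 : LL (fun q => Rw A C i q + ψ (qq i q)) p = LL (Rw A C i) p + LL (fun q => ψ (qq i q)) p :=
      LL_add h1 h2
    ext j k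
    rw [hc e he p hp j k, hr₀ e he i heU hes p hp]
    show LL (Rw A C i) p j k + _ = LL (fun q => Rw A C i q + ψ (qq i q)) p j k
    rw [h3, Matrix.add_apply]
    congr 1
    show dz j (dzbar k fun w => ((ψ (e.symm w) : ℝ) : ℂ)) p =
      dz j (dzbar k fun w => ((ψ (qq i w) : ℝ) : ℂ)) p
    apply levi_congr
    filter_upwards [e.open_target.mem_nhds hp] with w hw
    rw [hes w hw]
  refine ⟨_, hW, ?_, ?_⟩
  · intro i p hp
    obtain ⟨e, he, hpe, heU, hes⟩ := hQ.exists_chart i p hp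
    have h1 := (posDef_iff_hf.1 (h.posDef e he p hpe)).2
    rw [hrep e he i heU hes p hpe] at h1
    exact h1
  · intro i p hp
    exact ⟨qq i p, scal_qq hQ h hrep i hp⟩

end X

theorem t_X : St_X := by
  obtain ⟨X, i1, i2, i3, i4, i5, i6, qq, hQ, hqc⟩ := exists_isQ
  let _ : MeasurableSpace X := borel X
  have _ : BorelSpace X := ⟨rfl⟩
  refine ⟨X, i1, i2, i3, i4, i5, i6, inferInstance, inferInstance, fun A C hA hAC => ?_⟩
  have hP := wt_Rw A C
  have hpd := pd_Rw hA hAC
  obtain ⟨h₀, hr₀⟩ := exists_metric hQ (isMet_LL hP hpd)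
  refine ⟨h₀, (isKahler_iff hQ h₀ hr₀).2 fun i => closed_LL (hP.smooth i), fun φ hφ => ?_,
    fun h _ hs => transfer hQ hr₀ hs⟩
  exact total_scalar hQ (hqc 0) hφ h₀ hP hpd hr₀

end Pool.Agent.Y574.KX
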