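import Pool.Agent.Y574.KX.Quo2

/-!
# Hermitian metrics on the quotient and their matrices in the charts
-/

set_option autoImplicit false

open scoped Manifold ContDiff Topology ComplexConjugate MatrixGroups UpperHalfPlane Matrix
open MeasureTheory Set Filter

namespace Pool.Agent.Y574.KX

open Pool.Agent.W549.CY (Cn dz dzbar HermitianMetric chernRicci chernScalar)
open Pool.Agent.W711.KC (jj nn CG jj_ne im_mob)
open Pool.Agent.Y486
open Pool.Agent.TH598 (IsKahler)
open Pool.Agent.TH598.KG (hf Cutoff sf sf_pull sf_single sf_right_sum hf_ext' hf_of_transform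
  posDef_iff_hf dz_congr')

/-- closedness -/
def Closed (a : Cn 2 → M2) : Prop :=
  ∀ p ∈ UU, ∀ i j k : Fin 2, dz i (fun q => a q j k) p = dz j (fun q => a q i k) p

variable {X : Type} [TopologicalSpace X] [ChartedSpace (Cn 2) X] {qq : Fin 2 → Cn 2 → X}

theorem continuousAt_hom (g : SL(2, ℝ)) (i j : Fin 2) (p : Cn 2) :
    ContinuousAt (fun x : Cn 2 => hom g i x j) p := (continuous_hom g i j).continuousAt

theorem chart_FF_aux (hQ : IsQ X qq) {e e' : OpenPartialHomeomorph X (Cn 2)} {i j : Fin 2}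
    (hi : e.target ⊆ UU) (hi' : ∀ p ∈ e.target, e.symm p = qq i p)
    (hj' : ∀ p ∈ e'.target, e'.symm p = qq j p) {p : Cn 2} (hp : p ∈ e.target) {g : SL(2, ℝ)}
    (hg : g ∈ CG) (h4 : hom g i p j ≠ 0) (h5 : FF g i j p ∈ e'.target) :
    (e' ∘ e.symm) =ᶠ[𝓝 p] FF g i j := by
  have hF := contDiffAt_FF g i j (hi hp) h4 (n := ω)
  have c1 : ∀ᶠ y in 𝓝 p, FF g i j y ∈ e'.target :=
    hF.continuousAt.eventually_mem (e'.open_target.mem_nhds h5)
  have c2 : ∀ᶠ y in 𝓝 p, hom g i y j ≠ 0 := (continuousAt_hom g i j _).eventually_ne h4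
  filter_upwards [c1, c2, e.open_target.mem_nhds hp] with y hy1 hy2 hy3
  have h6 : qq i y = qq j (FF g i j y) :=
    (hQ.eq_iff i j _ (hi hy3) _ (FF_mem _ _ _ (hi hy3))).2 ⟨g, hg, hy2, rfl⟩
  show e' (e.symm y) = FF g i j y
  rw [hi' y hy3, h6, ← hj' _ hy1, e'.right_inv hy1]

/-- Two charts differ by `FF g i j`. -/
theorem chart_FF (hQ : IsQ X qq) {e e' : OpenPartialHomeomorph X (Cn 2)} {i j : Fin 2}
    (hi : e.target ⊆ UU) (hi' : ∀ p ∈ e.target, e.symm p = qq i p)
    (hj : e'.target ⊆ UU) (hj' : ∀ p ∈ e'.target, e'.symm p = qq j p) {x : X}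
    (hx : x ∈ e.source ∩ e'.source) :
    ∃ g ∈ CG, hom g i (e x) j ≠ 0 ∧ e' x = FF g i j (e x) ∧
      (e' ∘ e.symm) =ᶠ[𝓝 (e x)] FF g i j := by
  have h1 := e.map_source hx.1
  have h2 := e'.map_source hx.2
  have h3 : qq i (e x) = qq j (e' x) := by
    rw [← hi' _ h1, ← hj' _ h2, e.left_inv hx.1, e'.left_inv hx.2]
  obtain ⟨g, hg, h4, h5⟩ := (hQ.eq_iff i j _ (hi h1) _ (hj h2)).1 h3
  refine ⟨g, hg, h4, h5, ?_⟩
  refine chart_FF_aux hQ hi hi' hj' h1 hg h4 ?_
  rw [← h5]
  exact h2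

/-- The Hermitian metric with given matrices. -/
noncomputable def mkMetric (hQ : IsQ X qq) {m : Fin 2 → Cn 2 → M2} (hm : IsMet m) :
    HermitianMetric 2 X where
  g := open Classical in fun e z =>
    if he : e ∈ atlas (Cn 2) X then m (hQ.atlas_spec e he).choose z else 0
  smooth := by
    intro e he j k
    simp only [dif_pos he]
    exact (hm.smooth _ j k).mono (hQ.atlas_spec e he).choose_spec.1
  posDef := by
    intro e he z hz
    simp only [dif_pos he]
    have hzU := (hQ.atlas_spec e he).choose_spec.1 hz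
    exact posDef_iff_hf.2 ⟨hm.herm _ z hzU, hm.pos _ z hzU⟩
  transform := by
    intro e he e' he' x hx j k
    simp only [dif_pos he, dif_pos he']
    obtain ⟨hi, hi'⟩ := (hQ.atlas_spec e he).choose_spec
    obtain ⟨hj, hj'⟩ := (hQ.atlas_spec e' he').choose_spec
    obtain ⟨g, hg, h4, h5, h6⟩ := chart_FF hQ hi hi' hj hj' hx
    have h7 := hm.compat g hg _ _ _ (hi (e.map_source hx.1)) h4
    have h8 := sf_pull (L := fderiv ℂ (FF g _ _) (e x)) h7 (Pi.single j 1) (Pi.single k 1)
    have h9 : fderiv ℂ (e' ∘ e.symm) (e x) = fderiv ℂ (FF g _ _) (e x) :=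
      Filter.EventuallyEq.fderiv_eq (𝕜 := ℂ) h6
    rw [sf_single, sf_right_sum, ← h5, ← h9] at h8
    exact h8

/-- Construction of a Hermitian metric from its matrices in the charts. -/
theorem exists_metric (hQ : IsQ X qq) {m : Fin 2 → Cn 2 → M2} (hm : IsMet m) :
    ∃ h : HermitianMetric 2 X, Rep qq h m := by
  classical
  refine ⟨mkMetric hQ hm, ?_⟩
  intro e he i hi hi' p hp
  have h0 : (mkMetric hQ hm).g e p = m (hQ.atlas_spec e he).choose p := dif_pos he
  rw [h0]
  obtain ⟨hj, hj'⟩ := (hQ.atlas_spec e he).choose_spec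
  have hx : e.symm p ∈ e.source := e.map_target hp
  obtain ⟨g, hg, h4, h5, h6⟩ := chart_FF hQ hj hj' hi hi' ⟨hx, hx⟩
  rw [e.right_inv hp] at h4 h5 h6
  have h7 : FF g (hQ.atlas_spec e he).choose i =ᶠ[𝓝 p] id := by
    refine h6.symm.trans ?_
    filter_upwards [e.open_target.mem_nhds hp] with y hy
    exact e.right_inv hy
  apply hf_ext'
  intro v
  rw [hm.compat g hg _ _ _ (hi hp) h4 v, ← h5,
    Filter.EventuallyEq.fderiv_eq (𝕜 := ℂ) h7, fderiv_id]
  rfl

/-- two charts with the same index give the same matrix. -/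
theorem metric_same (h : HermitianMetric 2 X) {e e' : OpenPartialHomeomorph X (Cn 2)}
    (he : e ∈ atlas (Cn 2) X) (he' : e' ∈ atlas (Cn 2) X) {i : Fin 2}
    (hi' : ∀ p ∈ e.target, e.symm p = qq i p) (hj' : ∀ p ∈ e'.target, e'.symm p = qq i p)
    {p : Cn 2} (hp : p ∈ e.target) (hp' : p ∈ e'.target) : h.g e p = h.g e' p := by
  have hx : qq i p ∈ e.source := by rw [← hi' p hp]; exact e.map_target hp
  have hx' : qq i p ∈ e'.source := by rw [← hj' p hp']; exact e'.map_target hp'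
  have h1 : e (qq i p) = p := by rw [← hi' p hp, e.right_inv hp]
  have h2 : e' (qq i p) = p := by rw [← hj' p hp', e'.right_inv hp']
  have h3 : (e' ∘ e.symm) =ᶠ[𝓝 p] id := by
    filter_upwards [e.open_target.mem_nhds hp, e'.open_target.mem_nhds hp'] with y hy hy'
    show e' (e.symm y) = y
    rw [hi' y hy, ← hj' y hy', e'.right_inv hy']
  have h4 := h.transform e he e' he' (qq i p) ⟨hx, hx'⟩
  rw [h1, h2, Filter.EventuallyEq.fderiv_eq (𝕜 := ℂ) h3, fderiv_id] at h4
  apply hf_ext'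
  intro v
  exact hf_of_transform (L := ContinuousLinearMap.id ℂ _) h4 v

/-- The matrices of a Hermitian metric. -/
theorem exists_rep (hQ : IsQ X qq) (h : HermitianMetric 2 X) :
    ∃ m : Fin 2 → Cn 2 → M2, IsMet m ∧ Rep qq h m := by
  classical
  set m : Fin 2 → Cn 2 → M2 := fun i p =>
    if hp : p ∈ UU then h.g (hQ.exists_chart i p hp).choose p else 0 with hm
  have hR : Rep qq h m := by
    intro e he i hi hi' p hp
    rw [hm]
    simp only [dif_pos (hi hp)]
    obtain ⟨h1, h2, h3, h4⟩ := (hQ.exists_chart i p (hi hp)).choose_spec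
    exact metric_same h he h1 hi' h4 hp h2
  refine ⟨m, ⟨?_, ?_, ?_, ?_⟩, hR⟩
  · intro i j k p hp
    obtain ⟨e, he, hpe, heU, hes⟩ := hQ.exists_chart i p hp
    apply ContDiffAt.contDiffWithinAt
    refine ((h.smooth e he j k).contDiffAt (e.open_target.mem_nhds hpe)).congr_of_eventuallyEq ?_
    filter_upwards [e.open_target.mem_nhds hpe] with q hq
    rw [hR e he i heU hes q hq]
  · intro i p hp
    obtain ⟨e, he, hpe, heU, hes⟩ := hQ.exists_chart i p hp
    rw [← hR e he i heU hes p hpe]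
    exact (posDef_iff_hf.1 (h.posDef e he p hpe)).1
  · intro i p hp
    obtain ⟨e, he, hpe, heU, hes⟩ := hQ.exists_chart i p hp
    rw [← hR e he i heU hes p hpe]
    exact (posDef_iff_hf.1 (h.posDef e he p hpe)).2
  · intro g hg i j p hp h4 v
    obtain ⟨e, he, hpe, heU, hes⟩ := hQ.exists_chart i p hp
    obtain ⟨e', he', hpe', heU', hes'⟩ := hQ.exists_chart j (FF g i j p) (FF_mem _ _ _ hp)
    have h6 := chart_FF_aux hQ heU hes hes' hpe hg h4 hpe'
    have h7 : qq i p = qq j (FF g i j p) := (hQ.eq_iff i j p hp _ (FF_mem _ _ _ hp)).2 ⟨g, hg, h4, rfl⟩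
    have hx : qq i p ∈ e.source := by rw [← hes p hpe]; exact e.map_target hpe
    have hx' : qq i p ∈ e'.source := by rw [h7, ← hes' _ hpe']; exact e'.map_target hpe'
    have h1 : e (qq i p) = p := by rw [← hes p hpe, e.right_inv hpe]
    have h2 : e' (qq i p) = FF g i j p := by rw [h7, ← hes' _ hpe', e'.right_inv hpe']
    have h8 := h.transform e he e' he' (qq i p) ⟨hx, hx'⟩
    rw [h1, h2, Filter.EventuallyEq.fderiv_eq (𝕜 := ℂ) h6] at h8
    rw [← hR e he i heU hes p hpe, ← hR e' he' j heU' hes' _ hpe']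
    exact hf_of_transform h8 v

theorem isKahler_iff (hQ : IsQ X qq) (h : HermitianMetric 2 X) {m : Fin 2 → Cn 2 → M2}
    (hr : Rep qq h m) : IsKahler h ↔ ∀ i, Closed (m i) := by
  constructor
  · intro hK i p hp a b c
    obtain ⟨e, he, hpe, heU, hes⟩ := hQ.exists_chart i p hp
    have h1 : ∀ j k, (fun q => m i q j k) =ᶠ[𝓝 p] fun q => h.g e q j k := by
      intro j k
      filter_upwards [e.open_target.mem_nhds hpe] with q hq
      rw [hr e he i heU hes q hq]
    rw [dz_congr' (h1 b c), dz_congr' (h1 a c)]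
    exact hK e he p hpe a b c
  · intro hm e he p hpe a b c
    obtain ⟨i, heU, hes⟩ := hQ.atlas_spec e he
    have h1 : ∀ j k, (fun q => h.g e q j k) =ᶠ[𝓝 p] fun q => m i q j k := by
      intro j k
      filter_upwards [e.open_target.mem_nhds hpe] with q hq
      rw [hr e he i heU hes q hq]
    rw [dz_congr' (h1 b c), dz_congr' (h1 a c)]
    exact hm i p (heU hpe) a b c


end Pool.Agent.Y574.KX
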