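import Pool.Agent.Y574.KX.Quo

/-!
# The quotient of `ℍ × (ℂ² ∖ 0)` by `Γ × ℂˣ`: charts
-/

set_option autoImplicit false

open scoped Manifold ContDiff Topology ComplexConjugate MatrixGroups UpperHalfPlane Matrix
open Set Filter

namespace Pool.Agent.Y574.KX

open Pool.Agent.W549.CY (Cn HermitianMetric)
open Pool.Agent.TH598.KG (hf Cutoff)
open Pool.Agent.Y486
open Pool.Agent.W711.KC (jj nn CG jj_ne jj_mul nn_mul im_mob CG_far NN_pos)
open UpperHalfPlane (ofComplex)

/-- `X` is the quotient of `ℍ × ℙ¹`; the map `qq i` is the composition of the chart number `i` of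
`ℍ × ℙ¹` with the projection. -/
structure IsQ (X : Type) [TopologicalSpace X] [ChartedSpace (Cn 2) X] (qq : Fin 2 → Cn 2 → X) :
    Prop where
  atlas_spec : ∀ e ∈ atlas (Cn 2) X, ∃ i, e.target ⊆ UU ∧ ∀ p ∈ e.target, e.symm p = qq i p
  exists_chart : ∀ i, ∀ p ∈ UU, ∃ e ∈ atlas (Cn 2) X, p ∈ e.target ∧ e.target ⊆ UU ∧
    ∀ p' ∈ e.target, e.symm p' = qq i p'
  eq_iff : ∀ i j, ∀ p ∈ UU, ∀ p' ∈ UU, qq i p = qq j p' ↔ ∃ g ∈ CG, hom g i p j ≠ 0 ∧ p' = FF g i j p

/-- `m i`, `i = 0, 1`, are the matrices in the two charts of a Hermitian metric on the quotient. -/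
structure IsMet (m : Fin 2 → Cn 2 → M2) : Prop where
  smooth : ∀ i j k, ContDiffOn ℝ ∞ (fun p => m i p j k) UU
  herm : ∀ i, ∀ p ∈ UU, (m i p).IsHermitian
  pos : ∀ i, ∀ p ∈ UU, ∀ v : Cn 2, v ≠ 0 → 0 < (hf (m i p) v).re
  compat : ∀ g ∈ CG, ∀ i j, ∀ p ∈ UU, hom g i p j ≠ 0 → ∀ v : Cn 2,
    hf (m i p) v = hf (m j (FF g i j p)) (fderiv ℂ (FF g i j) p v)

/-- `m i` is the matrix of the Hermitian metric `h` in the chart number `i`. -/
def Rep {X : Type} [TopologicalSpace X] [ChartedSpace (Cn 2) X] (qq : Fin 2 → Cn 2 → X)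
    (h : HermitianMetric 2 X) (m : Fin 2 → Cn 2 → M2) : Prop :=
  ∀ e ∈ atlas (Cn 2) X, ∀ i, e.target ⊆ UU → (∀ p ∈ e.target, e.symm p = qq i p) →
    ∀ p ∈ e.target, h.g e p = m i p

theorem hom_eq' (g : SL(2, ℝ)) (i : Fin 2) (p : Cn 2) : hom g i p = dg (jj g (p 0)) (ins i p) := rfl

theorem continuousAt_ofComplex {z : ℂ} (hz : 0 < z.im) : ContinuousAt (ofComplex : ℂ → ℍ) z :=
  (UpperHalfPlane.contMDiffAt_ofComplex (n := 0) hz).continuousAt

theorem ofC_im {z : ℂ} (hz : 0 < z.im) : ((ofComplex z : ℍ) : ℂ) = z := by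
  rw [UpperHalfPlane.ofComplex_apply_of_im_pos hz]

theorem continuous_ins (i : Fin 2) : Continuous (ins i) := by
  refine continuous_pi fun j => ?_
  fin_cases i <;> fin_cases j <;> simp [ins] <;> fun_prop

/-- The point with affine coordinates `p` in the chart number `i`. -/
noncomputable def yI (i : Fin 2) (p : Cn 2) : YY := ⟨(ofComplex (p 0), ins i p), ins_ne i p⟩

/-- The map `qq`. -/
noncomputable def qM (i : Fin 2) (p : Cn 2) : MX := pj (yI i p)

theorem continuousOn_yI (i : Fin 2) : ContinuousOn (yI i) UU := by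
  intro p hp
  apply ContinuousAt.continuousWithinAt
  refine Topology.IsInducing.subtypeVal.continuousAt_iff.2 ?_
  refine ContinuousAt.prodMk ?_ (continuous_ins i).continuousAt
  exact ContinuousAt.comp (g := (ofComplex : ℂ → ℍ)) (f := fun p : Cn 2 => p 0)
    (continuousAt_ofComplex hp) (continuous_apply 0).continuousAt

theorem continuousOn_qM (i : Fin 2) : ContinuousOn (qM i) UU :=
  continuous_pj.comp_continuousOn (continuousOn_yI i)

theorem qM_eq_iff {i j : Fin 2} {p p' : Cn 2} (hp : p ∈ UU) (hp' : p' ∈ UU) :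
    qM i p = qM j p' ↔ ∃ g ∈ CG, hom g i p j ≠ 0 ∧ p' = FF g i j p := by
  unfold qM
  rw [pj_eq_iff]
  constructor
  · rintro ⟨g, hg, c, hc, h1, h2⟩
    change ofComplex (p' 0) = g • ofComplex (p 0) at h1
    change ins j p' = c • dg (jj g (ofComplex (p 0) : ℍ)) (ins i p) at h2
    rw [ofC_im hp, ← hom_eq'] at h2
    have h3 : p' 0 = nn g (p 0) / jj g (p 0) := by
      have := congrArg (fun z : ℍ => (z : ℂ)) h1
      rwa [coe_smul_H', ofC_im hp, ofC_im hp'] at this
    have h4 : hom g i p j ≠ 0 := by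
      intro h0
      have := congrFun h2 j
      rw [ins_self, Pi.smul_apply, h0, smul_zero] at this
      exact one_ne_zero this
    refine ⟨g, hg, h4, ?_⟩
    have h5 : outc j (ins j p') = outc j (hom g i p) := by rw [h2, outc_smul j _ hc]
    rw [outc_ins] at h5
    unfold FF
    rw [← h5, ← h3]
    exact (eta2 p').symm
  · rintro ⟨g, hg, h4, h5⟩
    refine ⟨g, hg, (hom g i p j)⁻¹, inv_ne_zero h4, ?_, ?_⟩
    · change ofComplex (p' 0) = g • ofComplex (p 0)
      apply UpperHalfPlane.ext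
      rw [coe_smul_H', ofC_im hp, ofC_im hp', h5]
      rfl
    · change ins j p' = (hom g i p j)⁻¹ • dg (jj g (ofComplex (p 0) : ℍ)) (ins i p)
      rw [ofC_im hp, ← hom_eq', h5]
      unfold FF
      rw [ins_outc j h4]

/-- The map from the part `x i ≠ 0` of `YY` to the affine coordinates. -/
noncomputable def aI (i : Fin 2) (y : YY) : Cn 2 := ![(y.1.1 : ℂ), outc i y.1.2]

theorem aI_mem (i : Fin 2) (y : YY) : aI i y ∈ UU := y.1.1.im_pos

theorem pj_yI_aI (i : Fin 2) {y : YY} (hy : y.1.2 i ≠ 0) : qM i (aI i y) = pj y := by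
  unfold qM
  symm
  rw [pj_eq_iff]
  refine ⟨1, CG.one_mem, (y.1.2 i)⁻¹, inv_ne_zero hy, ?_, ?_⟩
  · rw [one_smul]
    apply UpperHalfPlane.ext
    exact ofC_im (aI_mem i y)
  · rw [jj_one', dg_one]
    exact ins_outc i hy _

theorem aI_yI (i : Fin 2) {p : Cn 2} (hp : p ∈ UU) : aI i (yI i p) = p := by
  unfold aI
  have h1 : outc i (yI i p).1.2 = p 1 := outc_ins i p
  rw [h1]
  have h2 : (((yI i p).1.1 : ℍ) : ℂ) = p 0 := ofC_im hp
  rw [h2]
  exact eta2 p

theorem continuousOn_aI (i : Fin 2) : ContinuousOn (aI i) {y : YY | y.1.2 i ≠ 0} := by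
  have c1 : Continuous fun y : YY => ((y.1.1 : ℍ) : ℂ) :=
    UpperHalfPlane.continuous_coe.comp (continuous_fst.comp continuous_subtype_val)
  have c2 : ∀ k, Continuous fun y : YY => y.1.2 k := fun k =>
    (continuous_apply k).comp (continuous_snd.comp continuous_subtype_val)
  refine continuousOn_pi.2 fun k => ?_
  fin_cases k
  · exact c1.continuousOn
  · exact (c2 _).continuousOn.div (c2 _).continuousOn fun y hy => hy

theorem isOpen_image_qM (i : Fin 2) {T : Set (Cn 2)} (hT : IsOpen T) (hTU : T ⊆ UU) :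
    IsOpen (qM i '' T) := by
  have c2 : ∀ k, Continuous fun y : YY => y.1.2 k := fun k =>
    (continuous_apply k).comp (continuous_snd.comp continuous_subtype_val)
  have ho : IsOpen {y : YY | y.1.2 i ≠ 0} := isOpen_ne_fun (c2 i) continuous_const
  have h1 : IsOpen ({y : YY | y.1.2 i ≠ 0} ∩ aI i ⁻¹' T) :=
    (continuousOn_aI i).isOpen_inter_preimage ho hT
  have h2 : qM i '' T = pj '' ({y : YY | y.1.2 i ≠ 0} ∩ aI i ⁻¹' T) := by
    ext q
    constructor
    · rintro ⟨p, hp, rfl⟩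
      refine ⟨yI i p, ⟨?_, ?_⟩, rfl⟩
      · show ins i p i ≠ 0
        rw [ins_self]
        exact one_ne_zero
      · rw [mem_preimage, aI_yI i (hTU hp)]
        exact hp
    · rintro ⟨y, ⟨hy, hy'⟩, rfl⟩
      exact ⟨aI i y, hy', pj_yI_aI i hy⟩
  rw [h2]
  exact isOpenQuotientMap_pj.isOpenMap _ h1

/-- The target of a chart. -/
def TV (z : ℍ) : Set (Cn 2) := {p | p ∈ UU ∧ dist (ofComplex (p 0)) z < 1 / 2}

theorem isOpen_TV (z : ℍ) : IsOpen (TV z) := by
  have h1 : ContinuousOn (fun p : Cn 2 => dist (ofComplex (p 0)) z) UU := by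
    intro p hp
    apply ContinuousAt.continuousWithinAt
    have h2 : ContinuousAt (fun p : Cn 2 => (ofComplex (p 0) : ℍ)) p :=
      ContinuousAt.comp (g := (ofComplex : ℂ → ℍ)) (f := fun p : Cn 2 => p 0)
        (continuousAt_ofComplex hp) (continuous_apply 0).continuousAt
    exact Filter.Tendsto.dist h2 tendsto_const_nhds
  exact h1.isOpen_inter_preimage isOpen_UU isOpen_Iio

theorem injOn_qM (i : Fin 2) (z : ℍ) : InjOn (qM i) (TV z) := by
  intro p hp p' hp' h
  obtain ⟨g, hg, h1, h2⟩ := (qM_eq_iff hp.1 hp'.1).1 h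
  have h3 : ofComplex (p' 0) = g • ofComplex (p 0) := by
    apply UpperHalfPlane.ext
    rw [coe_smul_H', ofC_im hp.1, ofC_im hp'.1, h2]
    rfl
  have h4 : g = 1 := by
    refine CG_far.eq_of_dist_lt hg CG.one_mem (z := ofComplex (p 0)) ?_
    rw [one_smul, ← h3]
    have := dist_triangle_right (ofComplex (p' 0)) (ofComplex (p 0)) z
    linarith [hp.2, hp'.2]
  rw [h2, h4, FF_one_self]

/-- The inverse of a chart. -/
noncomputable def chI (i : Fin 2) (z : ℍ) : OpenPartialHomeomorph (Cn 2) MX :=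
  OpenPartialHomeomorph.ofContinuousOpenRestrict ((injOn_qM i z).toPartialEquiv (qM i) (TV z))
    ((continuousOn_qM i).mono fun _ hp => hp.1)
    (by
      intro S hS
      obtain ⟨O, hO, rfl⟩ := isOpen_induced_iff.1 hS
      have : (TV z).domRestrict (qM i) '' (Subtype.val ⁻¹' O) = qM i '' (TV z ∩ O) := by
        ext q
        constructor
        · rintro ⟨p, hp, rfl⟩
          exact ⟨p, ⟨p.2, hp⟩, rfl⟩
        · rintro ⟨p, ⟨hp, hp'⟩, rfl⟩
          exact ⟨⟨p, hp⟩, hp', rfl⟩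
      show IsOpen ((TV z).domRestrict (qM i) '' (Subtype.val ⁻¹' O))
      rw [this]
      exact isOpen_image_qM i ((isOpen_TV z).inter hO) fun _ hp => hp.1.1)
    (isOpen_TV z)

theorem chI_source (i : Fin 2) (z : ℍ) : (chI i z).source = TV z := rfl

theorem chI_apply (i : Fin 2) (z : ℍ) (p : Cn 2) : chI i z p = qM i p := rfl

theorem exists_qM (q : MX) : ∃ i : Fin 2, ∃ p ∈ UU, qM i p = q := by
  obtain ⟨y, rfl⟩ := pj_surj q
  obtain ⟨i, hi⟩ := Function.ne_iff.1 y.2
  exact ⟨i, aI i y, aI_mem i y, pj_yI_aI i hi⟩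

theorem mem_TV_self {p : Cn 2} (hp : p ∈ UU) : p ∈ TV (ofComplex (p 0)) :=
  ⟨hp, by rw [dist_self]; norm_num⟩

theorem exists_chI (q : MX) : ∃ iz : Fin 2 × ℍ, q ∈ (chI iz.1 iz.2).target := by
  obtain ⟨i, p, hp, rfl⟩ := exists_qM q
  exact ⟨(i, ofComplex (p 0)), (chI i _).map_source (mem_TV_self hp)⟩

noncomputable instance : ChartedSpace (Cn 2) MX where
  atlas := {e | ∃ i z, e = (chI i z).symm}
  chartAt q := (chI (exists_chI q).choose.1 (exists_chI q).choose.2).symm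
  mem_chart_source q := (exists_chI q).choose_spec
  chart_mem_atlas _ := ⟨_, _, rfl⟩

theorem mem_atlas_iff {e : OpenPartialHomeomorph MX (Cn 2)} :
    e ∈ atlas (Cn 2) MX ↔ ∃ i z, e = (chI i z).symm := Iff.rfl

/-- `MX` has the structure `IsQ`. -/
theorem isQ_MX : IsQ MX qM where
  atlas_spec := by
    rintro e ⟨i, z, rfl⟩
    exact ⟨i, fun p hp => hp.1, fun p _ => rfl⟩
  exists_chart := by
    intro i p hp
    exact ⟨(chI i (ofComplex (p 0))).symm, ⟨_, _, rfl⟩, mem_TV_self hp, fun p hp => hp.1,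
      fun p' _ => rfl⟩
  eq_iff := fun i j p hp p' hp' => qM_eq_iff hp hp'

instance : IsManifold 𝓘(ℂ, Cn 2) ω MX := by
  apply isManifold_of_contDiffOn
  intro e e' he he' y hy
  simp only [modelWithCornersSelf_coe, modelWithCornersSelf_coe_symm, Function.comp_id,
    Function.id_comp, preimage_id, range_id, inter_univ] at hy ⊢
  obtain ⟨hy1, hy2⟩ : y ∈ e.target ∧ e.symm y ∈ e'.source := by
    simpa using hy
  obtain ⟨i, hi, hi'⟩ := isQ_MX.atlas_spec e he
  obtain ⟨j, hj, hj'⟩ := isQ_MX.atlas_spec e' he'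
  have hyU := hi hy1
  have hy3 : e' (e.symm y) ∈ e'.target := e'.map_source hy2
  have h1 : qM i y = qM j (e' (e.symm y)) := by
    rw [← hj' _ hy3, e'.left_inv hy2, hi' y hy1]
  obtain ⟨g, hg, h2, h3⟩ := (qM_eq_iff hyU (hj hy3)).1 h1
  have hF := contDiffAt_FF g i j hyU h2 (n := ω)
  apply ContDiffAt.contDiffWithinAt
  refine hF.congr_of_eventuallyEq ?_
  have c1 : ∀ᶠ x in 𝓝 y, FF g i j x ∈ e'.target := by
    apply hF.continuousAt.eventually_mem
    rw [← h3]
    exact e'.open_target.mem_nhds hy3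
  have c2 : ∀ᶠ x in 𝓝 y, hom g i x j ≠ 0 := by
    have : ContinuousAt (fun x : Cn 2 => hom g i x j) y := by
      have hc : Continuous fun x : Cn 2 => hom g i x := by
        refine continuous_dg.comp (Continuous.prodMk ?_ (continuous_ins i))
        fun_prop
      exact ((continuous_apply j).comp hc).continuousAt
    exact this.eventually_ne h2
  filter_upwards [c1, c2, e.open_target.mem_nhds hy1] with x hx1 hx2 hx3
  have hxU := hi hx3
  have h4 : qM i x = qM j (FF g i j x) := (qM_eq_iff hxU (FF_mem _ _ _ hxU)).2 ⟨g, hg, hx2, rfl⟩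
  show e' (e.symm x) = FF g i j x
  rw [hi' x hx3, h4, ← hj' _ hx1, e'.right_inv hx1]

/-- The compact complex threefold `Γ \ (ℍ × ℙ²)`: quotient of `ℍ × (ℂ² ∖ 0)` by `Γ × ℂˣ`. -/
theorem exists_isQ : ∃ (X : Type) (_ : TopologicalSpace X) (_ : CompactSpace X) (_ : T2Space X)
    (_ : ConnectedSpace X) (_ : ChartedSpace (Cn 2) X) (_ : IsManifold 𝓘(ℂ, Cn 2) ω X)
    (qq : Fin 2 → Cn 2 → X), IsQ X qq ∧ ∀ i, ContinuousOn (qq i) UU :=
  ⟨MX, inferInstance, inferInstance, inferInstance, inferInstance, inferInstance, inferInstance, qM,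
    isQ_MX, continuousOn_qM⟩

end Pool.Agent.Y574.KX
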