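import Pool.Agent.Y574.KX.Met

/-!
# The volume measure of a metric on the quotient
-/

set_option autoImplicit false

open scoped Manifold ContDiff Topology ComplexConjugate MatrixGroups UpperHalfPlane Matrix
open MeasureTheory Set Filter

namespace Pool.Agent.Y574.KX

open Pool.Agent.W549.CY (Cn dz dzbar HermitianMetric chernRicci chernScalar)
open Pool.Agent.W711.KC (jj nn CG jj_ne im_mob jj_mul nn_mul CG_far)
open Pool.Agent.Y486
open Pool.Agent.TH598 (IsKahler IsVolume)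
open Pool.Agent.TH598.KG (hf Cutoff)
open Pool.Agent.TH997.KG (mob mob_mem mob_mul mob_coe hasDerivAt_mob)
open Pool.Agent.TH997.KGO (free_mob meas_inter tsum_ofReal det_of_compat det_restrict)

theorem FF_inv2 (g : SL(2, ℝ)) (i j : Fin 2) {p : Cn 2} (hp : p ∈ UU) (h : hom g i p j ≠ 0) :
    hom g⁻¹ j (FF g i j p) i ≠ 0 ∧ FF g⁻¹ j i (FF g i j p) = p :=
  ⟨hom_inv_ne g i j hp h, FF_inv g i j hp h⟩

theorem hom_zero_null (g : SL(2, ℝ)) (i : Fin 2) :
    volume {b : Cn 2 | b ∈ UU ∧ hom g i b 0 = 0} = 0 := by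
  refine measure_mono_null (t := {b : Cn 2 | b 1 = 0}) ?_ ?_
  · rintro b ⟨hb, h⟩
    have h1 : jj g (b 0) * ins i b 0 = 0 := h
    have h2 := (mul_eq_zero.1 h1).resolve_left (jj_ne g hb)
    fin_cases i
    · simp [ins] at h2
    · exact h2
  · rw [volume_pi]
    exact Measure.pi_hyperplane (μ := fun _ : Fin 2 => (volume : Measure ℂ)) (1 : Fin 2) 0

/-- The volume measure of a Hermitian metric, by unfolding: it is the image of the measure
`φ(p 0) 4 det (m 0 p) dp` under `qq 0`. -/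
theorem isVolume_map {X : Type} [TopologicalSpace X] [ChartedSpace (Cn 2) X] [CompactSpace X]
    [MeasurableSpace X] [BorelSpace X] {qq : Fin 2 → Cn 2 → X} (hQ : IsQ X qq)
    (hqc : ContinuousOn (qq 0) UU) {φ : ℂ → ℝ} (hφ : Cutoff CG φ)
    (h : HermitianMetric 2 X) {m : Fin 2 → Cn 2 → M2} (hm : IsMet m) (hr : Rep qq h m) :
    IsVolume h (Measure.map (qq 0) ((volume.restrict UU).withDensity
      fun p => ENNReal.ofReal (φ (p 0) * (4 * (m 0 p).det.re)))) := by
  intro e he A hA hAs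
  obtain ⟨i, hiU, hi⟩ := hQ.atlas_spec e he
  have : Countable CG := CG_far.countable one_pos
  have hUm : MeasurableSet UU := isOpen_UU.measurableSet
  set B := e '' A with hB
  have hBt : B ⊆ e.target := by
    rintro _ ⟨a, ha, rfl⟩
    exact e.map_source (hAs ha)
  have hBU : B ⊆ UU := hBt.trans hiU
  have hBm : MeasurableSet B := by
    rw [hB, e.image_eq_target_inter_inv_preimage hAs]
    exact meas_inter e.open_target.measurableSet e.continuousOn_symm hA
  have hmem : ∀ b ∈ e.target, (qq i b ∈ A ↔ b ∈ B) := by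
    intro b hb
    rw [← hi b hb]
    constructor
    · intro h1
      exact ⟨e.symm b, h1, e.right_inv hb⟩
    · rintro ⟨a, ha, rfl⟩
      rw [e.left_inv (hAs ha)]
      exact ha
  let V : CG → Set (Cn 2) := fun g => {p | p ∈ UU ∧ hom g 0 p i ≠ 0}
  have hVo : ∀ g, IsOpen (V g) := fun g =>
    isOpen_UU.inter ((continuous_hom g 0 i).isOpen_preimage _ isOpen_compl_singleton)
  let P : CG → Set (Cn 2) := fun g => V g ∩ FF g 0 i ⁻¹' B
  have hdiff : ∀ (g : CG) (p) (_ : p ∈ V g), DifferentiableAt ℂ (FF g 0 i) p := fun g p hp =>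
    (hasFDerivAt_FF g 0 i hp.1 hp.2).differentiableAt
  have hPm : ∀ g, MeasurableSet (P g) := fun g =>
    meas_inter (hVo g).measurableSet
      (fun p hp => (hdiff g p hp).continuousAt.continuousWithinAt) hBm
  have hPd : Pairwise (Function.onFun Disjoint P) := by
    intro g g' hgg
    rw [Function.onFun, Set.disjoint_left]
    rintro p ⟨hp, hpB⟩ ⟨hp', hpB'⟩
    apply hgg
    have e1 : qq 0 p = qq i (FF g 0 i p) :=
      (hQ.eq_iff 0 i p hp.1 _ (FF_mem _ _ _ hp.1)).2 ⟨g, g.2, hp.2, rfl⟩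
    have e2 : qq 0 p = qq i (FF g' 0 i p) :=
      (hQ.eq_iff 0 i p hp.1 _ (FF_mem _ _ _ hp.1)).2 ⟨g', g'.2, hp'.2, rfl⟩
    have e3 : FF g 0 i p = FF g' 0 i p := by
      have t1 := hBt hpB
      have t2 := hBt hpB'
      apply e.symm.injOn (by simpa using t1) (by simpa using t2)
      rw [hi _ t1, hi _ t2, ← e1, e2]
    have e4 : mob g (p 0) = mob g' (p 0) := congrFun e3 0
    have e5 : mob ((g' : SL(2, ℝ))⁻¹ * g) (p 0) = p 0 := by
      rw [mob_mul _ _ hp.1, e4]
      exact Pool.Agent.TH997.KG.mob_inv_left _ hp.1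
    have e6 := free_mob (mul_mem (inv_mem g'.2) g.2) hp.1 e5
    apply Subtype.ext
    exact (inv_mul_eq_one.1 e6).symm
  have hPU : qq 0 ⁻¹' A ∩ UU = ⋃ g, P g := by
    ext p
    rw [Set.mem_iUnion]
    constructor
    · rintro ⟨hpA, hpU⟩
      have hpA' : qq 0 p ∈ A := hpA
      have h1 : e (qq 0 p) ∈ e.target := e.map_source (hAs hpA')
      have h2 : qq 0 p = qq i (e (qq 0 p)) := by
        rw [← hi _ h1, e.left_inv (hAs hpA')]
      obtain ⟨g, hg, hne, hge⟩ := (hQ.eq_iff 0 i p hpU _ (hiU h1)).1 h2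
      refine ⟨⟨g, hg⟩, ⟨hpU, hne⟩, ?_⟩
      change FF g 0 i p ∈ B
      rw [← hge]
      exact ⟨_, hpA', rfl⟩
    · rintro ⟨g, hp, hpB⟩
      refine ⟨?_, hp.1⟩
      have e1 : qq 0 p = qq i (FF g 0 i p) :=
        (hQ.eq_iff 0 i p hp.1 _ (FF_mem _ _ _ hp.1)).2 ⟨g, g.2, hp.2, rfl⟩
      change qq 0 p ∈ A
      rw [e1]
      exact (hmem _ (hBt hpB)).2 hpB
  -- the left-hand side
  have hae : AEMeasurable (qq 0) ((volume.restrict UU).withDensity
      fun p => ENNReal.ofReal (φ (p 0) * (4 * (m 0 p).det.re))) :=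
    (hqc.aemeasurable hUm).mono_ac (withDensity_absolutelyContinuous _ _)
  rw [Measure.map_apply_of_aemeasurable hae hA, withDensity_apply',
    Measure.restrict_restrict' hUm, hPU, lintegral_iUnion hPm hPd]
  -- change of variables
  let G : CG → Cn 2 → ENNReal := fun g b =>
    ENNReal.ofReal (φ (mob (g : SL(2, ℝ))⁻¹ (b 0))) * ENNReal.ofReal (4 * (m i b).det.re)
  have hcv : ∀ g : CG, ∫⁻ p in P g, ENNReal.ofReal (φ (p 0) * (4 * (m 0 p).det.re)) =
      ∫⁻ b in B, G g b := by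
    intro g
    have hinj : Set.InjOn (FF g 0 i) (P g) := by
      rintro p ⟨hp, _⟩ p' ⟨hp', _⟩ hpp
      rw [← (FF_inv2 g 0 i hp.1 hp.2).2, ← (FF_inv2 g 0 i hp'.1 hp'.2).2, hpp]
    have h1 := lintegral_image_eq_lintegral_abs_det_fderiv_mul volume (hPm g)
      (f := FF g 0 i) (f' := fun p => (fderiv ℂ (FF g 0 i) p).restrictScalars ℝ)
      (fun p hp => ((hdiff g p hp.1).hasFDerivAt.restrictScalars ℝ).hasFDerivWithinAt) hinj (G g)
    have h2 : FF g 0 i '' P g =ᵐ[volume] B := by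
      have h3 : FF g 0 i '' P g = B \ {b : Cn 2 | b ∈ UU ∧ hom (g : SL(2, ℝ))⁻¹ i b 0 = 0} := by
        apply Set.Subset.antisymm
        · rintro _ ⟨p, ⟨hp, hpB⟩, rfl⟩
          refine ⟨hpB, fun hc => ?_⟩
          exact (FF_inv2 g 0 i hp.1 hp.2).1 hc.2
        · rintro b ⟨hb, hbc⟩
          have hbU := hBU hb
          have hne : hom (g : SL(2, ℝ))⁻¹ i b 0 ≠ 0 := fun hc => hbc ⟨hbU, hc⟩
          have h4 := FF_inv2 (g : SL(2, ℝ))⁻¹ i 0 hbU hne
          rw [inv_inv] at h4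
          refine ⟨FF (g : SL(2, ℝ))⁻¹ i 0 b, ⟨⟨FF_mem _ _ _ hbU, h4.1⟩, ?_⟩, h4.2⟩
          change FF g 0 i (FF (g : SL(2, ℝ))⁻¹ i 0 b) ∈ B
          rw [h4.2]
          exact hb
      rw [h3]
      exact sdiff_null_ae_eq_self (hom_zero_null _ _)
    rw [← setLIntegral_congr h2, h1]
    refine setLIntegral_congr_fun (hPm g) fun p hp => ?_
    have hpU := hp.1.1
    have hc := det_of_compat (hm.compat g g.2 0 i p hpU hp.1.2)
    have hF0 : FF g 0 i p 0 = mob g (p 0) := rfl
    have hinv : mob (g : SL(2, ℝ))⁻¹ (FF g 0 i p 0) = p 0 := by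
      rw [hF0]
      exact Pool.Agent.TH997.KG.mob_inv_left _ hpU
    change _ = ENNReal.ofReal |((fderiv ℂ (FF g 0 i) p).restrictScalars ℝ).det| *
      (ENNReal.ofReal (φ (mob (g : SL(2, ℝ))⁻¹ (FF g 0 i p 0))) *
        ENNReal.ofReal (4 * (m i (FF g 0 i p)).det.re))
    rw [hinv, hc, Complex.re_ofReal_mul, det_restrict, abs_of_nonneg (Complex.normSq_nonneg _),
      ← ENNReal.ofReal_mul (hφ.nonneg _), ← ENNReal.ofReal_mul (Complex.normSq_nonneg _)]
    congr 1
    ring
  rw [tsum_congr hcv]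
  have hGm : ∀ g : CG, AEMeasurable (G g) (volume.restrict B) := by
    intro g
    have hdet : ContinuousOn (fun b => (m i b).det) UU := by
      have h1 : ∀ j k, ContinuousOn (fun b => m i b j k) UU := fun j k =>
        (hm.smooth i j k).continuousOn
      simp only [Matrix.det_fin_two]
      fun_prop
    have h2 : ContinuousOn (fun b : Cn 2 => φ (mob (g : SL(2, ℝ))⁻¹ (b 0))) UU := by
      refine hφ.smooth.continuous.comp_continuousOn ?_
      intro b hb
      exact (ContinuousAt.comp (f := fun b : Cn 2 => b 0)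
        (hasDerivAt_mob (g : SL(2, ℝ))⁻¹ hb).continuousAt
        (continuous_apply (0 : Fin 2)).continuousAt).continuousWithinAt
    have h3 : AEMeasurable (G g) (volume.restrict UU) := by
      refine AEMeasurable.fun_mul ?_ ?_
      · exact (h2.aemeasurable hUm).ennreal_ofReal
      · exact ((continuousOn_const.mul
          (Complex.continuous_re.comp_continuousOn hdet)).aemeasurable hUm).ennreal_ofReal
    exact h3.mono_measure (Measure.restrict_mono hBU le_rfl)
  rw [← lintegral_tsum hGm]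
  refine setLIntegral_congr_fun hBm fun b hb => ?_
  change ∑' g : CG, ENNReal.ofReal (φ (mob (g : SL(2, ℝ))⁻¹ (b 0))) *
    ENNReal.ofReal (4 * (m i b).det.re) = _
  rw [ENNReal.tsum_mul_right, tsum_ofReal hφ (hBU hb), one_mul,
    hr e he i hiU hi b (hBt hb)]
  norm_num


end Pool.Agent.Y574.KX
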